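import Pool.Agent.Helper2.EX.Gen
import Pool.Agent.Helper94.SH.NotFull
import Pool.Agent.Helper24.PGN.GQ

/-!
Project EX (MP_b8862a_ag): the engine for constructions of polarised Hodge structures with a small Mumford-Tate group. Input: a
base point and a rational linear map of matrices that commutes with many infinitesimal isometries.
-/

set_option linter.unusedSectionVars false

open Matrix NormedSpace Module

namespace MH

variable {n : Type*} [Fintype n] [DecidableEq n]

section deriv

open scoped Matrix.Norms.Operator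

private theorem hasDerivAt_rC_exp_at (x : Matrix n n ℝ) (s : ℝ) :
    HasDerivAt (fun t : ℝ => rC (exp (t • x))) (rC x * rC (exp (s • x))) s := by
  have h1 : HasDerivAt (fun t : ℝ => exp (t • x)) (x * exp (s • x)) s := hasDerivAt_exp_smul_const' x s
  let L : Matrix n n ℝ →ₗ[ℝ] Matrix n n ℂ :=
    { toFun := rC
      map_add' := fun a b => rC_add a b
      map_smul' := fun c a => by
        rw [rC_smul]
        ext i j
        simp }
  have h2 : HasFDerivAt (fun y : Matrix n n ℝ => rC y) (LinearMap.toContinuousLinearMap L) (exp (s • x)) :=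
    (LinearMap.toContinuousLinearMap L).hasFDerivAt
  have h3 := h2.comp_hasDerivAt s h1
  refine h3.congr_deriv ?_
  exact rC_mul x (exp (s • x))

private theorem exp_der' (x : Matrix n n ℝ) (F : Matrix n n ℂ →ₗ[ℂ] Matrix n n ℂ)
    (h : ∀ Y, F (rC x * Y - Y * rC x) = rC x * F Y - F Y * rC x) (t : ℝ) (Y : Matrix n n ℂ) :
    rC (exp (t • -x)) * F (rC (exp (t • x)) * Y * rC (exp (t • -x))) * rC (exp (t • x)) = F Y := by
  have key : ∀ s : ℝ, HasDerivAt
      (fun s : ℝ => rC (exp (s • -x)) * F (rC (exp (s • x)) * Y * rC (exp (s • -x))) * rC (exp (s • x))) 0 s := by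
    intro s
    have h1 := hasDerivAt_rC_exp_at x s
    have h2 := hasDerivAt_rC_exp_at (-x) s
    have h3 : HasDerivAt (fun s : ℝ => F (rC (exp (s • x)) * Y * rC (exp (s • -x))))
        (F (rC x * rC (exp (s • x)) * Y * rC (exp (s • -x)) +
          rC (exp (s • x)) * Y * (rC (-x) * rC (exp (s • -x))))) s := by
      have h4 : HasFDerivAt (fun M : Matrix n n ℂ => F M) (LinearMap.toContinuousLinearMap (F.restrictScalars ℝ))
          (rC (exp (s • x)) * Y * rC (exp (s • -x))) :=
        (LinearMap.toContinuousLinearMap (F.restrictScalars ℝ)).hasFDerivAt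
      have h5 := (h1.mul_const Y).mul h2
      exact h4.comp_hasDerivAt s h5
    have h4 := (h2.mul h3).mul h1
    refine h4.congr_deriv ?_
    simp only [Pi.mul_apply]
    obtain ⟨Z, hZ⟩ : ∃ Z, Z = rC (exp (s • -x)) := ⟨_, rfl⟩
    obtain ⟨U, hU⟩ : ∃ U, U = rC (exp (s • x)) := ⟨_, rfl⟩
    have hc : rC (-x) * Z = Z * rC (-x) := by
      rw [hZ, ← rC_mul, ← rC_mul]
      congr 1
      exact ((Commute.refl (-x)).smul_right s).exp_right.eq
    rw [← hZ, ← hU, hc, rC_neg]
    have e1 : rC x * U * Y * Z + U * Y * (Z * -rC x) = rC x * (U * Y * Z) - (U * Y * Z) * rC x := by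
      noncomm_ring
    rw [e1, h]
    noncomm_ring
  have h5 : ∀ a b : ℝ, rC (exp (a • -x)) * F (rC (exp (a • x)) * Y * rC (exp (a • -x))) * rC (exp (a • x)) =
      rC (exp (b • -x)) * F (rC (exp (b • x)) * Y * rC (exp (b • -x))) * rC (exp (b • x)) :=
    is_const_of_deriv_eq_zero (fun s => (key s).differentiableAt) fun s => (key s).deriv
  have h6 := h5 t 0
  simp only [zero_smul, exp_zero, rC_one, one_mul, mul_one] at h6
  exact h6

end deriv

set_option backward.isDefEq.respectTransparency false in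
/-- the exponential of a derivation, for a linear map of matrices -/
theorem exp_der (x : Matrix n n ℝ) (F : Matrix n n ℂ →ₗ[ℂ] Matrix n n ℂ)
    (h : ∀ Y, F (rC x * Y - Y * rC x) = rC x * F Y - F Y * rC x) (t : ℝ) (Y : Matrix n n ℂ) :
    rC (exp (t • -x)) * F (rC (exp (t • x)) * Y * rC (exp (t • -x))) * rC (exp (t • x)) = F Y := exp_der' x F h t Y

/-- a linear map of matrices that is defined over the rational numbers commutes with the complex conjugation -/
theorem conj_of_rat {F : Matrix n n ℂ →ₗ[ℂ] Matrix n n ℂ}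
    (hrat : ∀ A : Matrix n n ℚ, ∃ B : Matrix n n ℚ, F (toC A) = toC B) (Y : Matrix n n ℂ) :
    F (Y.map (starRingEnd ℂ)) = (F Y).map (starRingEnd ℂ) := by
  have e0 : ∀ Z : Matrix n n ℂ, Z = ∑ i, ∑ j, Z i j • toC (Matrix.single i j (1 : ℚ)) := by
    intro Z
    have e1 : ∀ i j : n, toC (Matrix.single i j (1 : ℚ)) = Matrix.single i j (1 : ℂ) := by
      intro i j
      ext a b
      simp only [toC, Matrix.map_apply, Matrix.single_apply]
      split_ifs <;> simp
    simp only [e1]
    conv_lhs => rw [Matrix.matrix_eq_sum_single Z]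
    refine Finset.sum_congr rfl fun i _ => Finset.sum_congr rfl fun j _ => ?_
    rw [Matrix.smul_single, smul_eq_mul, mul_one]
  have e2 : F (Y.map (starRingEnd ℂ)) =
      ∑ i, ∑ j, starRingEnd ℂ (Y i j) • F (toC (Matrix.single i j (1 : ℚ))) := by
    conv_lhs => rw [e0 (Y.map (starRingEnd ℂ))]
    simp only [map_sum, map_smul, Matrix.map_apply]
  have e3 : F Y = ∑ i, ∑ j, Y i j • F (toC (Matrix.single i j (1 : ℚ))) := by
    conv_lhs => rw [e0 Y]
    simp only [map_sum, map_smul]
  rw [e2, e3]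
  ext a b
  simp only [Matrix.map_apply, Matrix.sum_apply, Matrix.smul_apply, smul_eq_mul, map_sum, map_mul]
  refine Finset.sum_congr rfl fun i _ => Finset.sum_congr rfl fun j _ => ?_
  obtain ⟨B, hB⟩ := hrat (Matrix.single i j (1 : ℚ))
  rw [hB]
  simp [toC]

variable {Q : Matrix n n ℚ} {P : ℤ → Matrix n n ℂ}

/-- **The engine.** -/
theorem engine_small (H : IsHW 2 Q {0, 1, 2} P) (F : Matrix n n ℂ →ₗ[ℂ] Matrix n n ℂ)
    (hrat : ∀ A : Matrix n n ℚ, ∃ B : Matrix n n ℚ, F (toC A) = toC B)
    (hcom : ∀ A : Matrix n n ℂ, (∀ p, A * P p = P p * A) →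
      (∀ X : Matrix n n ℂ, Xᵀ * toC Q + toC Q * X = 0 → (∀ Y, F (X * Y - Y * X) = X * F Y - F Y * X) →
        ∀ p, A * (X * P p - P p * X) = (X * P p - P p * X) * A) → ∃ c : ℂ, A = c • (1 : Matrix n n ℂ))
    (hH : ∀ Y, F ((P 2 - P 0) * Y - Y * (P 2 - P 0)) = (P 2 - P 0) * F Y - F Y * (P 2 - P 0)) {c : ℂ} (hc : c ≠ 0)
    (hFH : F (P 2 - P 0) = c • (P 2 - P 0))
    (hrk : finrank ℂ (LinearMap.range F) < 2 * (P 2).rank * (P 1).rank) :
    ∃ P' : ℤ → Matrix n n ℂ, IsHW 2 Q {0, 1, 2} P' ∧
      (∀ A : Matrix n n ℚ, (∀ p, toC A * P' p = P' p * toC A) → ∃ c : ℚ, A = c • (1 : Matrix n n ℚ)) ∧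
      (∀ p, (P' p).rank = (P p).rank) ∧ ∃ g : GL n ℂ, IsGQ 2 Q g ∧ g ∉ MT {0, 1, 2} P' := by
  have hcF : Continuous F := LinearMap.continuous_of_finiteDimensional F
  have hcl : IsClosed {g : Matrix n n ℝ | gᵀ * toR Q * g = toR Q ∧ ∀ Y, F (rC g * Y) * rC g = rC g * F (Y * rC g)} := by
    have e1 : {g : Matrix n n ℝ | gᵀ * toR Q * g = toR Q ∧ ∀ Y, F (rC g * Y) * rC g = rC g * F (Y * rC g)} =
        {g : Matrix n n ℝ | gᵀ * toR Q * g = toR Q} ∩
          ⋂ Y, {g : Matrix n n ℝ | F (rC g * Y) * rC g = rC g * F (Y * rC g)} := by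
      ext g
      simp
    rw [e1]
    refine IsClosed.inter (isClosed_eq ?_ continuous_const) (isClosed_iInter fun Y => isClosed_eq ?_ ?_)
    · exact (continuous_id.matrix_transpose.matrix_mul continuous_const).matrix_mul continuous_id
    · exact (hcF.comp (continuous_rC.matrix_mul continuous_const)).matrix_mul continuous_rC
    · exact continuous_rC.matrix_mul (hcF.comp (continuous_const.matrix_mul continuous_rC))
  -- real derivations
  have hexp : ∀ x : Matrix n n ℝ, xᵀ * toR Q + toR Q * x = 0 →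
      (∀ Y, F (rC x * Y - Y * rC x) = rC x * F Y - F Y * rC x) → ∀ t : ℝ,
      exp (t • x) ∈ {g : Matrix n n ℝ | gᵀ * toR Q * g = toR Q ∧ ∀ Y, F (rC g * Y) * rC g = rC g * F (Y * rC g)} := by
    intro x hx1 hx2 t
    refine ⟨exp_isometry H.isUnit_toR hx1 t, fun Y => ?_⟩
    have a1 : rC (exp (t • x)) * rC (exp (t • -x)) = 1 := by
      rw [← rC_mul, exp_mul_exp_neg, rC_one]
    have e1 := exp_der x F hx2 t (Y * rC (exp (t • x)))
    have e2 : rC (exp (t • x)) * (Y * rC (exp (t • x))) * rC (exp (t • -x)) = rC (exp (t • x)) * Y := by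
      calc _ = rC (exp (t • x)) * Y * (rC (exp (t • x)) * rC (exp (t • -x))) := by simp only [mul_assoc]
        _ = _ := by rw [a1, mul_one]
    rw [e2] at e1
    rw [← e1]
    calc F (rC (exp (t • x)) * Y) * rC (exp (t • x)) =
          (rC (exp (t • x)) * rC (exp (t • -x))) * F (rC (exp (t • x)) * Y) * rC (exp (t • x)) := by
            rw [a1, one_mul]
      _ = _ := by simp only [mul_assoc]
  obtain ⟨g, ⟨hg1, hg2⟩, gi, h1, h2, H', hEnd⟩ := exists_member H
    {g : Matrix n n ℝ | gᵀ * toR Q * g = toR Q ∧ ∀ Y, F (rC g * Y) * rC g = rC g * F (Y * rC g)} hcl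
    ⟨by simp, fun Y => by simp [rC_one]⟩ (by
      rintro g ⟨g1, g2⟩ h ⟨h1, h2⟩
      refine ⟨?_, fun Y => ?_⟩
      · calc (g * h)ᵀ * toR Q * (g * h) = hᵀ * (gᵀ * toR Q * g) * h := by
              rw [Matrix.transpose_mul]; simp only [mul_assoc]
          _ = toR Q := by rw [g1, h1]
      · rw [rC_mul]
        calc F (rC g * rC h * Y) * (rC g * rC h) = (F (rC g * (rC h * Y)) * rC g) * rC h := by
              simp only [mul_assoc]
          _ = rC g * (F (rC h * (Y * rC g)) * rC h) := by rw [g2]; simp only [mul_assoc]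
          _ = _ := by rw [h2]; simp only [mul_assoc]) (fun g hg => hg.1) (by
      intro A hA hA2
      refine hcom A hA fun X hX1 hX2 p => ?_
      -- the real and the imaginary part
      obtain ⟨x, hx⟩ : ∃ x : Matrix n n ℝ, x = X.map Complex.re := ⟨_, rfl⟩
      obtain ⟨y, hy⟩ : ∃ y : Matrix n n ℝ, y = X.map Complex.im := ⟨_, rfl⟩
      have hXc : X.map (starRingEnd ℂ) = rC x - Complex.I • rC y := by
        rw [hx, hy]
        ext i j
        apply Complex.ext <;> simp [rC]
      have hX : X = rC x + Complex.I • rC y := by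
        rw [hx, hy]
        ext i j
        apply Complex.ext <;> simp [rC]
      have hQc : (toC Q).map (starRingEnd ℂ) = toC Q := by
        ext i j
        simp [toC]
      have hs2 : (X.map (starRingEnd ℂ))ᵀ * toC Q + toC Q * X.map (starRingEnd ℂ) = 0 := by
        have e1 := congrArg (fun M : Matrix n n ℂ => M.map (starRingEnd ℂ)) hX1
        simp only [Matrix.map_add _ (fun a b => map_add _ a b), Matrix.map_mul, hQc,
          Matrix.map_zero _ (map_zero (starRingEnd ℂ))] at e1
        exact e1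
      have hd2 : ∀ Y, F (X.map (starRingEnd ℂ) * Y - Y * X.map (starRingEnd ℂ)) =
          X.map (starRingEnd ℂ) * F Y - F Y * X.map (starRingEnd ℂ) := by
        intro Y
        have e1 := hX2 (Y.map (starRingEnd ℂ))
        have e2 := congrArg (fun M : Matrix n n ℂ => M.map (starRingEnd ℂ)) e1
        simp only [Matrix.map_sub _ (fun a b => map_sub _ a b), Matrix.map_mul] at e2
        rw [← conj_of_rat hrat, ← conj_of_rat hrat] at e2
        have e3 : (Y.map (starRingEnd ℂ)).map (starRingEnd ℂ) = Y := by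
          ext i j
          simp
        simp only [Matrix.map_sub _ (fun a b => map_sub (starRingEnd ℂ) a b), Matrix.map_mul, e3] at e2
        exact e2
      have hcx : rC x = (2 : ℂ)⁻¹ • (X + X.map (starRingEnd ℂ)) := by
        rw [hXc]
        conv_rhs => rw [hX]
        rw [add_add_sub_cancel, ← two_smul ℂ, smul_smul, inv_mul_cancel₀ two_ne_zero, one_smul]
      have hcy : rC y = (-(2 : ℂ)⁻¹ * Complex.I) • (X - X.map (starRingEnd ℂ)) := by
        rw [hXc]
        conv_rhs => rw [hX]
        rw [add_sub_sub_cancel, ← two_smul ℂ, smul_smul, smul_smul]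
        have : -(2 : ℂ)⁻¹ * Complex.I * 2 * Complex.I = 1 := by
          calc -(2 : ℂ)⁻¹ * Complex.I * 2 * Complex.I = -((2 : ℂ)⁻¹ * 2) * (Complex.I * Complex.I) := by ring
            _ = 1 := by rw [Complex.I_mul_I]; norm_num
        rw [this, one_smul]
      have key : ∀ (z : Matrix n n ℝ) (a b : ℂ), rC z = a • X + b • X.map (starRingEnd ℂ) →
          A * (rC z * P p - P p * rC z) = (rC z * P p - P p * rC z) * A := by
        intro z a b hz
        refine hA2 z (hexp z ?_ ?_) p
        · apply rC_inj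
          rw [rC_add, rC_mul, rC_mul, rC_transpose, rC_toR, rC_zero, hz]
          rw [Matrix.transpose_add, Matrix.transpose_smul, Matrix.transpose_smul, add_mul, mul_add, smul_mul_assoc,
            smul_mul_assoc, mul_smul_comm, mul_smul_comm]
          calc a • (Xᵀ * toC Q) + b • ((X.map (starRingEnd ℂ))ᵀ * toC Q) +
                (a • (toC Q * X) + b • (toC Q * X.map (starRingEnd ℂ))) =
                a • (Xᵀ * toC Q + toC Q * X) + b • ((X.map (starRingEnd ℂ))ᵀ * toC Q + toC Q * X.map (starRingEnd ℂ)) := by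
                  rw [smul_add, smul_add]; abel
            _ = 0 := by rw [hX1, hs2, smul_zero, smul_zero, add_zero]
        · intro Y
          rw [hz]
          have e1 : (a • X + b • X.map (starRingEnd ℂ)) * Y - Y * (a • X + b • X.map (starRingEnd ℂ)) =
              a • (X * Y - Y * X) + b • (X.map (starRingEnd ℂ) * Y - Y * X.map (starRingEnd ℂ)) := by
            rw [add_mul, mul_add, smul_mul_assoc, smul_mul_assoc, mul_smul_comm, mul_smul_comm, smul_sub, smul_sub]
            abel
          rw [e1, map_add, map_smul, map_smul, hX2, hd2, add_mul, mul_add, smul_mul_assoc, smul_mul_assoc,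
            mul_smul_comm, mul_smul_comm, smul_sub, smul_sub]
          abel
      have kx := key x (2 : ℂ)⁻¹ (2 : ℂ)⁻¹ (by rw [hcx, smul_add])
      have ky := key y (-(2 : ℂ)⁻¹ * Complex.I) (-(-(2 : ℂ)⁻¹ * Complex.I)) (by rw [hcy, smul_sub, neg_smul, sub_eq_add_neg])
      have e1 : X * P p - P p * X = (rC x * P p - P p * rC x) + Complex.I • (rC y * P p - P p * rC y) := by
        conv_lhs => rw [hX]
        rw [add_mul, mul_add, smul_mul_assoc, mul_smul_comm, smul_sub]
        abel
      rw [e1, mul_add, add_mul, mul_smul_comm, smul_mul_assoc, kx, ky])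
  have a1 : rC g * rC gi = 1 := by rw [← rC_mul, h1, rC_one]
  have a2 : rC gi * rC g = 1 := by rw [← rC_mul, h2, rC_one]
  have hr : ∀ p, (rC g * P p * rC gi).rank = (P p).rank := fun p => rank_conj27 a1 a2 (P p)
  -- `F` commutes with the conjugation with `g`
  have hFg : ∀ Y, F (rC g * Y * rC gi) = rC g * F Y * rC gi := by
    intro Y
    have e1 := hg2 (Y * rC gi)
    have e2 : Y * rC gi * rC g = Y := by rw [mul_assoc, a2, mul_one]
    rw [e2, ← mul_assoc] at e1
    calc F (rC g * Y * rC gi) = F (rC g * Y * rC gi) * rC g * rC gi := by rw [mul_assoc _ (rC g), a1, mul_one]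
      _ = _ := by rw [e1]
  have hd : rC g * P 2 * rC gi - rC g * P 0 * rC gi = rC g * (P 2 - P 0) * rC gi := by
    rw [mul_sub, sub_mul]
  have hin : ∀ Y, Y = rC g * (rC gi * Y * rC g) * rC gi := by
    intro Y
    calc Y = (rC g * rC gi) * Y * (rC g * rC gi) := by rw [a1, one_mul, mul_one]
      _ = _ := by simp only [mul_assoc]
  obtain ⟨h0, hh0⟩ : ∃ h0, h0 = P 2 - P 0 := ⟨_, rfl⟩
  obtain ⟨u, hu1, hu2, hu3⟩ := SH94.exists_not_mem H' F hrat (by
    intro X
    rw [hd, ← hh0]
    obtain ⟨Z, hZ⟩ : ∃ Z, Z = rC gi * X * rC g := ⟨_, rfl⟩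
    have hX : X = rC g * Z * rC gi := by rw [hZ]; exact hin X
    rw [hX]
    have cj : ∀ Y Z : Matrix n n ℂ, (rC g * Y * rC gi) * (rC g * Z * rC gi) = rC g * (Y * Z) * rC gi := by
      intro Y Z
      calc (rC g * Y * rC gi) * (rC g * Z * rC gi) = rC g * Y * (rC gi * rC g) * Z * rC gi := by
            simp only [mul_assoc]
        _ = _ := by rw [a2, mul_one]; simp only [mul_assoc]
    rw [cj, cj, ← sub_mul, ← mul_sub, hFg, hFg, cj, cj, ← sub_mul, ← mul_sub]
    congr 2
    rw [hh0]
    exact hH Z) hc (by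
    rw [hd, hFg, hFH, mul_smul_comm, smul_mul_assoc]) (by
    rw [hr, hr]
    exact hrk)
  exact ⟨fun p => rC g * P p * rC gi, H', hEnd, hr, u, isGQ_of24 hu1 hu2, hu3⟩

end MH
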