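import Pool.Agent.Helper27.PGN.Gen

/-!
Project EX (MP_b8862a_ag): the generic member of the orbit of a polarised Hodge structure under a closed group of real
isometries has only scalar endomorphisms if only the scalars commute with the Hodge decomposition and its infinitesimal
variations.
-/

set_option linter.unusedSectionVars false

open Matrix NormedSpace

namespace MH

variable {n : Type*} [Fintype n] [DecidableEq n]

/-- the real matrix of a rational matrix -/
noncomputable def toR (Q : Matrix n n ℚ) : Matrix n n ℝ := Q.map (algebraMap ℚ ℝ)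

theorem rC_toR (Q : Matrix n n ℚ) : rC (toR Q) = toC Q := rC_rat Q

theorem rC_inj {x y : Matrix n n ℝ} (h : rC x = rC y) : x = y := by
  ext i j
  have := congrFun (congrFun h i) j
  simpa [rC] using this

theorem rC_neg (x : Matrix n n ℝ) : rC (-x) = -rC x := by
  ext i j
  simp [rC]

theorem rC_zero : rC (0 : Matrix n n ℝ) = 0 := by
  ext i j
  simp [rC]

theorem rC_sub (x y : Matrix n n ℝ) : rC (x - y) = rC x - rC y := by
  ext i j
  simp [rC]

theorem rC_add (x y : Matrix n n ℝ) : rC (x + y) = rC x + rC y := by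
  ext i j
  simp [rC]

theorem rC_smul (c : ℝ) (x : Matrix n n ℝ) : rC (c • x) = (c : ℂ) • rC x := by
  ext i j
  simp [rC]

theorem continuous_rC : Continuous (rC : Matrix n n ℝ → Matrix n n ℂ) :=
  Continuous.matrix_map continuous_id Complex.continuous_ofReal

section deriv

open scoped Matrix.Norms.Operator

private theorem hasDerivAt_rC_exp (x : Matrix n n ℝ) :
    HasDerivAt (fun t : ℝ => rC (exp (t • x))) (rC x) 0 := by
  have h1 : HasDerivAt (fun t : ℝ => exp (t • x)) (exp ((0 : ℝ) • x) * x) 0 := hasDerivAt_exp_smul_const x 0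
  rw [zero_smul, exp_zero, one_mul] at h1
  let L : Matrix n n ℝ →ₗ[ℝ] Matrix n n ℂ :=
    { toFun := rC
      map_add' := fun a b => rC_add a b
      map_smul' := fun c a => by
        rw [rC_smul]
        ext i j
        simp }
  have h2 : HasFDerivAt (fun y : Matrix n n ℝ => rC y) (LinearMap.toContinuousLinearMap L) (exp ((0 : ℝ) • x)) :=
    (LinearMap.toContinuousLinearMap L).hasFDerivAt
  exact h2.comp_hasDerivAt (0 : ℝ) h1

private theorem comm_of_exp' {A Y : Matrix n n ℂ} {x : Matrix n n ℝ}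
    (h : ∀ᶠ t : ℝ in nhds 0, A * (rC (exp (t • x)) * Y * rC (exp ((-t) • x))) =
      (rC (exp (t • x)) * Y * rC (exp ((-t) • x))) * A) :
    A * (rC x * Y - Y * rC x) = (rC x * Y - Y * rC x) * A := by
  have h1 := hasDerivAt_rC_exp x
  have h2 : HasDerivAt (fun t : ℝ => rC (exp ((-t) • x))) (-rC x) 0 := by
    have h3 := hasDerivAt_rC_exp (-x)
    rw [rC_neg] at h3
    refine h3.congr_of_eventuallyEq (Filter.Eventually.of_forall fun t => ?_)
    simp only [smul_neg, neg_smul]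
  have h3 : HasDerivAt (fun t : ℝ => rC (exp (t • x)) * Y * rC (exp ((-t) • x)))
      (rC x * Y - Y * rC x) 0 := by
    have h4 := (h1.mul_const Y).mul h2
    refine h4.congr_deriv ?_
    simp only [zero_smul, neg_zero, exp_zero, rC_one, mul_one, one_mul]
    rw [mul_neg, sub_eq_add_neg]
  have h4 := (h3.const_mul A).sub (h3.mul_const A)
  have h5 : HasDerivAt (fun _ : ℝ => (0 : Matrix n n ℂ)) (A * (rC x * Y - Y * rC x) - (rC x * Y - Y * rC x) * A) 0 := by
    refine h4.congr_of_eventuallyEq ?_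
    filter_upwards [h] with t ht
    rw [Pi.sub_apply, ht, sub_self]
  exact sub_eq_zero.1 (h5.unique (hasDerivAt_const _ _))

private theorem continuous_exp_smul' (x : Matrix n n ℝ) : Continuous fun t : ℝ => exp (t • x) :=
  (differentiable_exp_smul_const ℝ x).continuous

/-- intertwining with the adjoint action, one argument -/
private theorem exp_intertwine' (x : Matrix n n ℝ) (Ψ : (n → ℝ) →ₗ[ℝ] Matrix n n ℝ)
    (h : ∀ v, Ψ (x *ᵥ v) = x * Ψ v - Ψ v * x) (t : ℝ) (v : n → ℝ) :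
    exp (t • -x) * Ψ (exp (t • x) *ᵥ v) * exp (t • x) = Ψ v := by
  let Λ : Matrix n n ℝ →ₗ[ℝ] Matrix n n ℝ :=
    { toFun := fun M => Ψ (M *ᵥ v)
      map_add' := fun a b => by rw [Matrix.add_mulVec, map_add]
      map_smul' := fun c a => by rw [Matrix.smul_mulVec, map_smul, RingHom.id_apply] }
  have key : ∀ s : ℝ, HasDerivAt (fun s : ℝ => exp (s • -x) * Ψ (exp (s • x) *ᵥ v) * exp (s • x)) 0 s := by
    intro s
    have h1 : HasDerivAt (fun t : ℝ => exp (t • x)) (x * exp (s • x)) s := hasDerivAt_exp_smul_const' x s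
    have h2 : HasDerivAt (fun t : ℝ => exp (t • -x)) (exp (s • -x) * -x) s := hasDerivAt_exp_smul_const (-x) s
    have h3 : HasDerivAt (fun t : ℝ => Ψ (exp (t • x) *ᵥ v)) (Ψ ((x * exp (s • x)) *ᵥ v)) s := by
      have h4 : HasFDerivAt (fun M : Matrix n n ℝ => Λ M) (LinearMap.toContinuousLinearMap Λ) (exp (s • x)) :=
        (LinearMap.toContinuousLinearMap Λ).hasFDerivAt
      exact h4.comp_hasDerivAt s h1
    have h4 := (h2.mul h3).mul h1
    refine h4.congr_deriv ?_
    rw [← Matrix.mulVec_mulVec, h]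
    simp only [Pi.mul_apply]
    obtain ⟨Y, hY⟩ : ∃ Y, Y = Ψ (exp (s • x) *ᵥ v) := ⟨_, rfl⟩
    obtain ⟨Z, hZ⟩ : ∃ Z, Z = exp (s • -x) := ⟨_, rfl⟩
    obtain ⟨U, hU⟩ : ∃ U, U = exp (s • x) := ⟨_, rfl⟩
    rw [← hY, ← hZ, ← hU]
    noncomm_ring
  have h5 : ∀ a b : ℝ, exp (a • -x) * Ψ (exp (a • x) *ᵥ v) * exp (a • x) =
      exp (b • -x) * Ψ (exp (b • x) *ᵥ v) * exp (b • x) :=
    is_const_of_deriv_eq_zero (fun s => (key s).differentiableAt) fun s => (key s).deriv
  have h6 := h5 t 0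
  simp only [zero_smul, exp_zero, one_mul, mul_one, Matrix.one_mulVec] at h6
  exact h6

/-- intertwining with the adjoint action, two arguments -/
private theorem exp_intertwine2' (x : Matrix n n ℝ) (Ψ : (n → ℝ) →ₗ[ℝ] (n → ℝ) →ₗ[ℝ] Matrix n n ℝ)
    (h : ∀ u v, Ψ (x *ᵥ u) v + Ψ u (x *ᵥ v) = x * Ψ u v - Ψ u v * x) (t : ℝ) (u v : n → ℝ) :
    exp (t • -x) * Ψ (exp (t • x) *ᵥ u) (exp (t • x) *ᵥ v) * exp (t • x) = Ψ u v := by
  let Λ : (n → ℝ) → Matrix n n ℝ →ₗ[ℝ] (n → ℝ) := fun v =>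
    { toFun := fun M => M *ᵥ v
      map_add' := fun a b => by rw [Matrix.add_mulVec]
      map_smul' := fun c a => by rw [Matrix.smul_mulVec, RingHom.id_apply] }
  have key : ∀ s : ℝ, HasDerivAt
      (fun s : ℝ => exp (s • -x) * Ψ (exp (s • x) *ᵥ u) (exp (s • x) *ᵥ v) * exp (s • x)) 0 s := by
    intro s
    have h1 : HasDerivAt (fun t : ℝ => exp (t • x)) (x * exp (s • x)) s := hasDerivAt_exp_smul_const' x s
    have h2 : HasDerivAt (fun t : ℝ => exp (t • -x)) (exp (s • -x) * -x) s := hasDerivAt_exp_smul_const (-x) s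
    have h3 : ∀ v : n → ℝ, HasDerivAt (fun t : ℝ => exp (t • x) *ᵥ v) ((x * exp (s • x)) *ᵥ v) s := by
      intro v
      have h4 : HasFDerivAt (fun M : Matrix n n ℝ => Λ v M) (LinearMap.toContinuousLinearMap (Λ v)) (exp (s • x)) :=
        (LinearMap.toContinuousLinearMap (Λ v)).hasFDerivAt
      exact h4.comp_hasDerivAt s h1
    have h5 : HasDerivAt (fun t : ℝ => Ψ (exp (t • x) *ᵥ u) (exp (t • x) *ᵥ v))
        (Ψ (exp (s • x) *ᵥ u) ((x * exp (s • x)) *ᵥ v) + Ψ ((x * exp (s • x)) *ᵥ u) (exp (s • x) *ᵥ v)) s :=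
      Ψ.toContinuousBilinearMap.hasDerivAt_of_bilinear (fun _ => h3 u) fun _ => h3 v
    have h4 := (h2.mul h5).mul h1
    refine h4.congr_deriv ?_
    rw [← Matrix.mulVec_mulVec, ← Matrix.mulVec_mulVec, add_comm (Ψ _ _), h]
    simp only [Pi.mul_apply]
    obtain ⟨Y, hY⟩ : ∃ Y, Y = Ψ (exp (s • x) *ᵥ u) (exp (s • x) *ᵥ v) := ⟨_, rfl⟩
    obtain ⟨Z, hZ⟩ : ∃ Z, Z = exp (s • -x) := ⟨_, rfl⟩
    obtain ⟨U, hU⟩ : ∃ U, U = exp (s • x) := ⟨_, rfl⟩
    rw [← hY, ← hZ, ← hU]
    noncomm_ring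
  have h5 : ∀ a b : ℝ, exp (a • -x) * Ψ (exp (a • x) *ᵥ u) (exp (a • x) *ᵥ v) * exp (a • x) =
      exp (b • -x) * Ψ (exp (b • x) *ᵥ u) (exp (b • x) *ᵥ v) * exp (b • x) :=
    is_const_of_deriv_eq_zero (fun s => (key s).differentiableAt) fun s => (key s).deriv
  have h6 := h5 t 0
  simp only [zero_smul, exp_zero, one_mul, mul_one, Matrix.one_mulVec] at h6
  exact h6

end deriv

set_option backward.isDefEq.respectTransparency false in
/-- if `A` commutes with the translates of `Y` for small `t`, then it commutes with `[x, Y]` -/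
theorem comm_of_exp {A Y : Matrix n n ℂ} {x : Matrix n n ℝ}
    (h : ∀ᶠ t : ℝ in nhds 0, A * (rC (exp (t • x)) * Y * rC (exp ((-t) • x))) =
      (rC (exp (t • x)) * Y * rC (exp ((-t) • x))) * A) :
    A * (rC x * Y - Y * rC x) = (rC x * Y - Y * rC x) * A := comm_of_exp' h

set_option backward.isDefEq.respectTransparency false in
theorem continuous_exp_smul (x : Matrix n n ℝ) : Continuous fun t : ℝ => exp (t • x) := continuous_exp_smul' x

theorem rC_det (M : Matrix n n ℝ) : (rC M).det = (M.det : ℂ) := by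
  unfold rC
  exact (RingHom.map_det Complex.ofRealHom M).symm

theorem toC_scalar {A : Matrix n n ℚ} {c : ℂ} (h : toC A = c • (1 : Matrix n n ℂ)) :
    ∃ c : ℚ, A = c • (1 : Matrix n n ℚ) := by
  rcases isEmpty_or_nonempty n with hn | ⟨⟨i⟩⟩
  · exact ⟨0, Subsingleton.elim _ _⟩
  · refine ⟨A i i, ?_⟩
    have h1 : algebraMap ℚ ℂ (A i i) = c := by
      have := congrFun (congrFun h i) i
      simpa [toC] using this
    ext a b
    have h2 := congrFun (congrFun h a) b
    rw [← h1] at h2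
    apply (algebraMap ℚ ℂ).injective
    rw [Matrix.smul_apply, Matrix.one_apply, smul_eq_mul, map_mul]
    rw [toC, Matrix.map_apply, Matrix.smul_apply, Matrix.one_apply, smul_eq_mul] at h2
    rw [h2]
    split_ifs <;> simp

variable {w : ℤ} {Q : Matrix n n ℚ} {S : Finset ℤ} {P : ℤ → Matrix n n ℂ}

theorem IsHW.isUnit_toR (H : IsHW w Q S P) : IsUnit (toR Q).det := by
  obtain ⟨_, _, Qi, _, _, hQ1, _, _⟩ := H.exists_basis
  rw [isUnit_iff_ne_zero]
  intro h
  have h2 := congrArg Matrix.det hQ1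
  rw [Matrix.det_mul, ← rC_toR, rC_det, h, Complex.ofReal_zero, zero_mul, Matrix.det_one] at h2
  exact zero_ne_one h2

/-- **The generic member.** -/
theorem exists_member (H : IsHW w Q S P) (T : Set (Matrix n n ℝ)) (hT : IsClosed T) (h1 : (1 : Matrix n n ℝ) ∈ T)
    (hmul : ∀ g ∈ T, ∀ h ∈ T, g * h ∈ T) (hQ : ∀ g ∈ T, gᵀ * toR Q * g = toR Q)
    (hcomm : ∀ A : Matrix n n ℂ, (∀ p, A * P p = P p * A) →
      (∀ x : Matrix n n ℝ, (∀ t : ℝ, exp (t • x) ∈ T) → ∀ p,
        A * (rC x * P p - P p * rC x) = (rC x * P p - P p * rC x) * A) → ∃ c : ℂ, A = c • (1 : Matrix n n ℂ)) :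
    ∃ g ∈ T, ∃ gi : Matrix n n ℝ, g * gi = 1 ∧ gi * g = 1 ∧ IsHW w Q S (fun p => rC g * P p * rC gi) ∧
      ∀ A : Matrix n n ℚ, (∀ p, toC A * (rC g * P p * rC gi) = (rC g * P p * rC gi) * toC A) →
        ∃ c : ℚ, A = c • (1 : Matrix n n ℚ) := by
  classical
  have hdR := H.isUnit_toR
  obtain ⟨inv, hinv⟩ : ∃ inv : Matrix n n ℝ → Matrix n n ℝ, inv = fun g => (toR Q)⁻¹ * gᵀ * toR Q := ⟨_, rfl⟩
  have i1 : ∀ g ∈ T, inv g * g = 1 := by
    intro g hg
    rw [hinv]
    simp only [mul_assoc]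
    rw [← mul_assoc gᵀ, hQ g hg, Matrix.nonsing_inv_mul _ hdR]
  have i2 : ∀ g ∈ T, g * inv g = 1 := fun g hg => mul_eq_one_comm.1 (i1 g hg)
  have hinvc : Continuous inv := by
    rw [hinv]
    exact ((continuous_const.matrix_mul continuous_id.matrix_transpose).matrix_mul continuous_const)
  have hlc : LocallyCompactSpace (Matrix n n ℝ) := inferInstanceAs (LocallyCompactSpace (n → n → ℝ))
  have hlcT : LocallyCompactSpace T := hT.isClosedEmbedding_subtypeVal.locallyCompactSpace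
  have hb : BaireSpace T := inferInstance
  have hne : Nonempty T := ⟨⟨1, h1⟩⟩
  obtain ⟨⟨g, hg⟩, hEnd⟩ := exists_generic27 (T := T) (fun g p => rC g.1 * P p * rC (inv g.1))
    (fun p => ((continuous_rC.comp continuous_subtype_val).matrix_mul continuous_const).matrix_mul
      (continuous_rC.comp (hinvc.comp continuous_subtype_val))) (by
    rintro U hU ⟨⟨g0, hg0⟩, hgU⟩ A hA
    have a1 : rC (inv g0) * rC g0 = 1 := by rw [← rC_mul, i1 g0 hg0, rC_one]
    have a2 : rC g0 * rC (inv g0) = 1 := by rw [← rC_mul, i2 g0 hg0, rC_one]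
    -- moving the commutation from `g0 X g0⁻¹` to `X`
    have mv : ∀ X : Matrix n n ℂ, toC A * (rC g0 * X * rC (inv g0)) = (rC g0 * X * rC (inv g0)) * toC A →
        (rC (inv g0) * toC A * rC g0) * X = X * (rC (inv g0) * toC A * rC g0) := by
      intro X hX
      calc (rC (inv g0) * toC A * rC g0) * X =
            rC (inv g0) * (toC A * (rC g0 * X * rC (inv g0))) * rC g0 := by
              simp only [mul_assoc]; rw [a1, mul_one]
        _ = (rC (inv g0) * rC g0) * X * (rC (inv g0) * toC A * rC g0) := by rw [hX]; simp only [mul_assoc]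
        _ = _ := by rw [a1, one_mul]
    obtain ⟨c, hc⟩ := hcomm (rC (inv g0) * toC A * rC g0) (fun p => mv _ (hA _ hgU p)) (by
      intro x hx p
      apply comm_of_exp
      have hcont : Continuous fun t : ℝ => (⟨g0 * exp (t • x), hmul _ hg0 _ (hx t)⟩ : T) :=
        (continuous_const.matrix_mul (continuous_exp_smul x)).subtype_mk _
      have h0 : (⟨g0 * exp ((0 : ℝ) • x), hmul _ hg0 _ (hx 0)⟩ : T) = ⟨g0, hg0⟩ := by
        apply Subtype.ext
        simp only [zero_smul, exp_zero, mul_one]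
      have hev : ∀ᶠ t : ℝ in nhds 0, (⟨g0 * exp (t • x), hmul _ hg0 _ (hx t)⟩ : T) ∈ U :=
        hcont.continuousAt.eventually_mem (by rw [h0]; exact hU.mem_nhds hgU)
      filter_upwards [hev] with t ht
      apply mv
      have e1 : exp (t • x) * exp ((-t) • x) = 1 := by
        rw [← Matrix.exp_add_of_commute, neg_smul, add_neg_cancel, exp_zero]
        rw [neg_smul]
        exact (Commute.refl _).neg_right
      have e2 : inv (g0 * exp (t • x)) = exp ((-t) • x) * inv g0 := by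
        have e3 := i1 _ (hmul _ hg0 _ (hx t))
        calc inv (g0 * exp (t • x)) = inv (g0 * exp (t • x)) * ((g0 * exp (t • x)) * (exp ((-t) • x) * inv g0)) := by
              rw [mul_assoc g0, ← mul_assoc (exp (t • x)), e1, one_mul, i2 g0 hg0, mul_one]
          _ = _ := by rw [← mul_assoc, e3, one_mul]
      have e3 := hA _ ht p
      simp only [e2, rC_mul] at e3
      simpa only [mul_assoc] using e3)
    apply toC_scalar (c := c)
    calc toC A = (rC g0 * rC (inv g0)) * toC A * (rC g0 * rC (inv g0)) := by rw [a2, one_mul, mul_one]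
      _ = rC g0 * (rC (inv g0) * toC A * rC g0) * rC (inv g0) := by simp only [mul_assoc]
      _ = _ := by rw [hc, mul_smul_comm, mul_one, smul_mul_assoc, a2])
  refine ⟨g, hg, inv g, i2 g hg, i1 g hg, ?_, hEnd⟩
  refine H.conj27 ?_ ?_ (rC_conj g) ?_
  · rw [← rC_mul, i2 g hg, rC_one]
  · rw [← rC_mul, i1 g hg, rC_one]
  · rw [← rC_toR, ← rC_transpose, ← rC_mul, ← rC_mul, hQ g hg]

set_option backward.isDefEq.respectTransparency false in
/-- the exponential of a derivation, one argument -/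
theorem exp_intertwine (x : Matrix n n ℝ) (Ψ : (n → ℝ) →ₗ[ℝ] Matrix n n ℝ)
    (h : ∀ v, Ψ (x *ᵥ v) = x * Ψ v - Ψ v * x) (t : ℝ) (v : n → ℝ) :
    exp (t • -x) * Ψ (exp (t • x) *ᵥ v) * exp (t • x) = Ψ v := exp_intertwine' x Ψ h t v

set_option backward.isDefEq.respectTransparency false in
/-- the exponential of a derivation, two arguments -/
theorem exp_intertwine2 (x : Matrix n n ℝ) (Ψ : (n → ℝ) →ₗ[ℝ] (n → ℝ) →ₗ[ℝ] Matrix n n ℝ)
    (h : ∀ u v, Ψ (x *ᵥ u) v + Ψ u (x *ᵥ v) = x * Ψ u v - Ψ u v * x) (t : ℝ) (u v : n → ℝ) :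
    exp (t • -x) * Ψ (exp (t • x) *ᵥ u) (exp (t • x) *ᵥ v) * exp (t • x) = Ψ u v := exp_intertwine2' x Ψ h t u v

theorem exp_mul_exp_neg (x : Matrix n n ℝ) (t : ℝ) : exp (t • x) * exp (t • -x) = 1 := by
  rw [← Matrix.exp_add_of_commute, smul_neg, add_neg_cancel, exp_zero]
  rw [smul_neg]
  exact (Commute.refl _).neg_right

theorem exp_isometry {x q : Matrix n n ℝ} (hq : IsUnit q.det) (h : xᵀ * q + q * x = 0) (t : ℝ) :
    (exp (t • x))ᵀ * q * exp (t • x) = q := by
  have hu : IsUnit q := (Matrix.isUnit_iff_isUnit_det q).2 hq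
  have e0 : xᵀ = q * -x * q⁻¹ := by
    have e1 : xᵀ * q = q * -x := by
      rw [mul_neg]
      exact eq_neg_of_add_eq_zero_left h
    rw [← e1, mul_assoc, Matrix.mul_nonsing_inv _ hq, mul_one]
  have e1 : (exp (t • x))ᵀ = q * exp (t • -x) * q⁻¹ := by
    rw [← Matrix.exp_transpose, Matrix.transpose_smul, e0, ← Matrix.exp_conj _ _ hu]
    congr 1
    rw [mul_smul_comm, smul_mul_assoc]
  rw [e1, mul_assoc (q * _), Matrix.nonsing_inv_mul _ hq, mul_one, mul_assoc]
  have e2 : exp (t • -x) * exp (t • x) = 1 := by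
    have := exp_mul_exp_neg (-x) t
    rwa [neg_neg] at this
  rw [e2, mul_one]

/-- **The generic member, for the group of the isometries that preserve a bracket** `(v, u) ↦ Ψ v u`. -/
theorem exists_member1 (H : IsHW w Q S P) (Ψ : (n → ℝ) →ₗ[ℝ] Matrix n n ℝ)
    (hcomm : ∀ A : Matrix n n ℂ, (∀ p, A * P p = P p * A) →
      (∀ x : Matrix n n ℝ, xᵀ * toR Q + toR Q * x = 0 → (∀ v, Ψ (x *ᵥ v) = x * Ψ v - Ψ v * x) → ∀ p,
        A * (rC x * P p - P p * rC x) = (rC x * P p - P p * rC x) * A) → ∃ c : ℂ, A = c • (1 : Matrix n n ℂ)) :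
    ∃ g gi : Matrix n n ℝ, g * gi = 1 ∧ gi * g = 1 ∧ gᵀ * toR Q * g = toR Q ∧ (∀ v, Ψ (g *ᵥ v) * g = g * Ψ v) ∧
      IsHW w Q S (fun p => rC g * P p * rC gi) ∧
      ∀ A : Matrix n n ℚ, (∀ p, toC A * (rC g * P p * rC gi) = (rC g * P p * rC gi) * toC A) →
        ∃ c : ℚ, A = c • (1 : Matrix n n ℚ) := by
  have hcΨ : Continuous Ψ := LinearMap.continuous_of_finiteDimensional Ψ
  have hcl : IsClosed {g : Matrix n n ℝ | gᵀ * toR Q * g = toR Q ∧ ∀ v, Ψ (g *ᵥ v) * g = g * Ψ v} := by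
    have e1 : {g : Matrix n n ℝ | gᵀ * toR Q * g = toR Q ∧ ∀ v, Ψ (g *ᵥ v) * g = g * Ψ v} =
        {g : Matrix n n ℝ | gᵀ * toR Q * g = toR Q} ∩ ⋂ v, {g : Matrix n n ℝ | Ψ (g *ᵥ v) * g = g * Ψ v} := by
      ext g
      simp
    rw [e1]
    refine IsClosed.inter (isClosed_eq ?_ continuous_const) (isClosed_iInter fun v => isClosed_eq ?_ ?_)
    · exact (continuous_id.matrix_transpose.matrix_mul continuous_const).matrix_mul continuous_id
    · exact (hcΨ.comp (continuous_id.matrix_mulVec continuous_const)).matrix_mul continuous_id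
    · exact continuous_id.matrix_mul continuous_const
  obtain ⟨g, ⟨hg1, hg2⟩, gi, h1, h2, h3, h4⟩ := exists_member H
    {g : Matrix n n ℝ | gᵀ * toR Q * g = toR Q ∧ ∀ v, Ψ (g *ᵥ v) * g = g * Ψ v} hcl
    ⟨by simp, fun v => by simp⟩ (by
      rintro g ⟨g1, g2⟩ h ⟨h1, h2⟩
      refine ⟨?_, fun v => ?_⟩
      · calc (g * h)ᵀ * toR Q * (g * h) = hᵀ * (gᵀ * toR Q * g) * h := by
              rw [Matrix.transpose_mul]; simp only [mul_assoc]
          _ = toR Q := by rw [g1, h1]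
      · rw [← Matrix.mulVec_mulVec, ← mul_assoc, g2, mul_assoc, h2, mul_assoc]) (fun g hg => hg.1) (by
      intro A hA hA2
      refine hcomm A hA fun x hx1 hx2 p => hA2 x (fun t => ⟨exp_isometry H.isUnit_toR hx1 t, fun v => ?_⟩) p
      have e1 := exp_intertwine x Ψ hx2 t v
      calc Ψ (exp (t • x) *ᵥ v) * exp (t • x) =
            (exp (t • x) * exp (t • -x)) * Ψ (exp (t • x) *ᵥ v) * exp (t • x) := by
              rw [exp_mul_exp_neg, one_mul]
        _ = exp (t • x) * (exp (t • -x) * Ψ (exp (t • x) *ᵥ v) * exp (t • x)) := by simp only [mul_assoc]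
        _ = _ := by rw [e1])
  exact ⟨g, gi, h1, h2, hg1, hg2, h3, h4⟩

/-- **The generic member, for the group of the isometries that preserve a triple product** `(u, v, w) ↦ Ψ u v w`. -/
theorem exists_member2 (H : IsHW w Q S P) (Ψ : (n → ℝ) →ₗ[ℝ] (n → ℝ) →ₗ[ℝ] Matrix n n ℝ)
    (hcomm : ∀ A : Matrix n n ℂ, (∀ p, A * P p = P p * A) →
      (∀ x : Matrix n n ℝ, xᵀ * toR Q + toR Q * x = 0 →
        (∀ u v, Ψ (x *ᵥ u) v + Ψ u (x *ᵥ v) = x * Ψ u v - Ψ u v * x) → ∀ p,
        A * (rC x * P p - P p * rC x) = (rC x * P p - P p * rC x) * A) → ∃ c : ℂ, A = c • (1 : Matrix n n ℂ)) :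
    ∃ g gi : Matrix n n ℝ, g * gi = 1 ∧ gi * g = 1 ∧ gᵀ * toR Q * g = toR Q ∧
      (∀ u v, Ψ (g *ᵥ u) (g *ᵥ v) * g = g * Ψ u v) ∧
      IsHW w Q S (fun p => rC g * P p * rC gi) ∧
      ∀ A : Matrix n n ℚ, (∀ p, toC A * (rC g * P p * rC gi) = (rC g * P p * rC gi) * toC A) →
        ∃ c : ℚ, A = c • (1 : Matrix n n ℚ) := by
  have hcΨ : Continuous fun p : (n → ℝ) × (n → ℝ) => Ψ p.1 p.2 := by
    have h1 : Continuous fun p : (n → ℝ) × (n → ℝ) => ∑ i, p.1 i • Ψ (Pi.single i 1) p.2 := by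
      refine continuous_finsetSum _ fun i _ => ?_
      refine ((continuous_apply i).comp continuous_fst).smul ?_
      exact (LinearMap.continuous_of_finiteDimensional (Ψ (Pi.single i 1))).comp continuous_snd
    refine h1.congr fun p => ?_
    have h2 : p.1 = ∑ i, p.1 i • (Pi.single i (1 : ℝ) : n → ℝ) := by
      ext j
      simp [Finset.sum_apply, Pi.single_apply]
    conv_rhs => rw [h2]
    rw [map_sum, LinearMap.sum_apply]
    refine Finset.sum_congr rfl fun i _ => ?_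
    rw [map_smul, LinearMap.smul_apply]
  have hcl : IsClosed {g : Matrix n n ℝ | gᵀ * toR Q * g = toR Q ∧ ∀ u v, Ψ (g *ᵥ u) (g *ᵥ v) * g = g * Ψ u v} := by
    have e1 : {g : Matrix n n ℝ | gᵀ * toR Q * g = toR Q ∧ ∀ u v, Ψ (g *ᵥ u) (g *ᵥ v) * g = g * Ψ u v} =
        {g : Matrix n n ℝ | gᵀ * toR Q * g = toR Q} ∩
          ⋂ u, ⋂ v, {g : Matrix n n ℝ | Ψ (g *ᵥ u) (g *ᵥ v) * g = g * Ψ u v} := by
      ext g
      simp
    rw [e1]
    refine IsClosed.inter (isClosed_eq ?_ continuous_const)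
      (isClosed_iInter fun u => isClosed_iInter fun v => isClosed_eq ?_ ?_)
    · exact (continuous_id.matrix_transpose.matrix_mul continuous_const).matrix_mul continuous_id
    · exact (hcΨ.comp ((continuous_id.matrix_mulVec continuous_const).prodMk
        (continuous_id.matrix_mulVec continuous_const))).matrix_mul continuous_id
    · exact continuous_id.matrix_mul continuous_const
  obtain ⟨g, ⟨hg1, hg2⟩, gi, h1, h2, h3, h4⟩ := exists_member H
    {g : Matrix n n ℝ | gᵀ * toR Q * g = toR Q ∧ ∀ u v, Ψ (g *ᵥ u) (g *ᵥ v) * g = g * Ψ u v} hcl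
    ⟨by simp, fun u v => by simp⟩ (by
      rintro g ⟨g1, g2⟩ h ⟨h1, h2⟩
      refine ⟨?_, fun u v => ?_⟩
      · calc (g * h)ᵀ * toR Q * (g * h) = hᵀ * (gᵀ * toR Q * g) * h := by
              rw [Matrix.transpose_mul]; simp only [mul_assoc]
          _ = toR Q := by rw [g1, h1]
      · rw [← Matrix.mulVec_mulVec, ← Matrix.mulVec_mulVec, ← mul_assoc, g2, mul_assoc, h2, mul_assoc])
      (fun g hg => hg.1) (by
      intro A hA hA2
      refine hcomm A hA fun x hx1 hx2 p => hA2 x (fun t => ⟨exp_isometry H.isUnit_toR hx1 t, fun u v => ?_⟩) p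
      have e1 := exp_intertwine2 x Ψ hx2 t u v
      calc Ψ (exp (t • x) *ᵥ u) (exp (t • x) *ᵥ v) * exp (t • x) =
            (exp (t • x) * exp (t • -x)) * Ψ (exp (t • x) *ᵥ u) (exp (t • x) *ᵥ v) * exp (t • x) := by
              rw [exp_mul_exp_neg, one_mul]
        _ = exp (t • x) * (exp (t • -x) * Ψ (exp (t • x) *ᵥ u) (exp (t • x) *ᵥ v) * exp (t • x)) := by
              simp only [mul_assoc]
        _ = _ := by rw [e1])
  exact ⟨g, gi, h1, h2, hg1, hg2, h3, h4⟩

end MH
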